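import Pool.Agent.H586.AF.C

/-!
# Task AF-P12 (helper740): one plaquette of the plane 12 with a background field
-/

set_option autoImplicit false

open Finset
open scoped Quaternion

namespace Pool.Agent.H740.AF

open Pool.Agent.H586.AF

noncomputable section

/-! ### Quaternions as pairs of complex numbers -/

/-- the component in `ℝ + ℝ k` -/
def cA (q : ℍ[ℝ]) : ℂ := ⟨q.re, q.imK⟩
/-- the other component -/
def cB (q : ℍ[ℝ]) : ℂ := ⟨q.imI, q.imJ⟩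

lemma cA_mul (p q : ℍ[ℝ]) : cA (p * q) = cA p * cA q - cB p * star (cB q) := by
  apply Complex.ext
  · simp only [cA, cB, Quaternion.re_mul, Complex.star_def, Complex.sub_re, Complex.mul_re,
      Complex.conj_re, Complex.conj_im]
    ring
  · simp only [cA, cB, Quaternion.imK_mul, Complex.star_def, Complex.sub_im, Complex.mul_im,
      Complex.conj_re, Complex.conj_im]
    ring

lemma cB_mul (p q : ℍ[ℝ]) : cB (p * q) = cA p * cB q + cB p * star (cA q) := by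
  apply Complex.ext
  · simp only [cA, cB, Quaternion.imI_mul, Complex.star_def, Complex.add_re, Complex.mul_re,
      Complex.conj_re, Complex.conj_im]
    ring
  · simp only [cA, cB, Quaternion.imJ_mul, Complex.star_def, Complex.add_im, Complex.mul_im,
      Complex.conj_re, Complex.conj_im]
    ring

lemma cA_star (q : ℍ[ℝ]) : cA (star q) = star (cA q) := by
  apply Complex.ext
  · simp only [cA, Quaternion.re_star, Complex.star_def, Complex.conj_re]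
  · simp only [cA, Quaternion.imK_star, Complex.star_def, Complex.conj_im]

lemma cB_star (q : ℍ[ℝ]) : cB (star q) = -cB q := by
  apply Complex.ext
  · simp only [cB, Quaternion.imI_star, Complex.neg_re]
  · simp only [cB, Quaternion.imJ_star, Complex.neg_im]

/-- `exp (i κ θ)` -/
def E (κ θ : ℝ) : ℂ := Complex.exp (((κ * θ : ℝ) : ℂ) * Complex.I)

lemma E_add (κ κ' θ : ℝ) : E (κ + κ') θ = E κ θ * E κ' θ := by
  unfold E
  rw [← Complex.exp_add]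
  congr 1
  push_cast
  ring

lemma E_zero (θ : ℝ) : E 0 θ = 1 := by
  unfold E
  simp

lemma E_neg (κ θ : ℝ) : E κ θ * E (-κ) θ = 1 := by
  rw [← E_add, add_neg_cancel, E_zero]

lemma star_E (κ θ : ℝ) : star (E κ θ) = E (-κ) θ := by
  unfold E
  rw [Complex.star_def, ← Complex.exp_conj]
  congr 1
  rw [map_mul, Complex.conj_ofReal, Complex.conj_I]
  push_cast
  ring

lemma norm_E (κ θ : ℝ) : ‖E κ θ‖ = 1 := Complex.norm_exp_ofReal_mul_I _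

lemma E_at_zero (κ : ℝ) : E κ 0 = 1 := by
  unfold E
  simp

lemma cA_bg (θ y : ℝ) : cA (bg θ y) = E (y / 2) θ := by
  have e : y / 2 * θ = θ * y / 2 := by ring
  unfold E
  rw [e]
  apply Complex.ext
  · rw [Complex.exp_ofReal_mul_I_re]
    rfl
  · rw [Complex.exp_ofReal_mul_I_im]
    rfl

lemma cB_bg (θ y : ℝ) : cB (bg θ y) = 0 := rfl

lemma cA_frame (θ y : ℝ) (q : ℍ[ℝ]) : cA (bg θ y * q * bg θ y) = E y θ * cA q := by
  rw [cA_mul, cA_mul, cB_bg, cA_bg]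
  have h : E y θ = E (y / 2) θ * E (y / 2) θ := by rw [← E_add, add_halves]
  rw [h]
  simp
  ring

lemma cB_frame (θ y : ℝ) (q : ℍ[ℝ]) : cB (bg θ y * q * bg θ y) = cB q := by
  rw [cB_mul, cB_mul, cB_bg, cA_bg, star_E]
  have h := E_neg (y / 2) θ
  linear_combination cB q * h

/-! ### Trigonometric sums -/

/-- `Re (exp (i κ θ) m)` -/
def T (κ : ℝ) (m : ℂ) (θ : ℝ) : ℝ := (E κ θ * m).re

/-- `c₀ - 2 ∑ Re (exp (i κ θ) m)` -/
def Gs {n : ℕ} (c₀ : ℝ) (κ : Fin n → ℝ) (m : Fin n → ℂ) (θ : ℝ) : ℝ :=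
  c₀ - 2 * ∑ j, T (κ j) (m j) θ

/-- the coefficients of the derivative -/
def dm {n : ℕ} (κ : Fin n → ℝ) (m : Fin n → ℂ) : Fin n → ℂ := fun j => Complex.I * (κ j : ℂ) * m j

lemma E_der (κ θ : ℝ) : HasDerivAt (fun θ : ℝ => E κ θ) (E κ θ * (Complex.I * κ)) θ := by
  unfold E
  have h1 : HasDerivAt (fun θ : ℝ => (((κ * θ : ℝ) : ℂ) * Complex.I)) ((κ : ℂ) * Complex.I) θ := by
    have h2 : HasDerivAt (fun θ : ℝ => ((κ * θ : ℝ) : ℂ)) ((κ : ℝ) : ℂ) θ := by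
      have h3 : HasDerivAt (fun θ : ℝ => κ * θ) κ θ := by
        simpa using (hasDerivAt_id θ).const_mul κ
      exact h3.ofReal_comp
    exact h2.mul_const _
  have h4 := h1.cexp
  rw [mul_comm (κ : ℂ) Complex.I] at h4
  exact h4

lemma T_der (κ : ℝ) (m : ℂ) (θ : ℝ) :
    HasDerivAt (fun θ : ℝ => T κ m θ) (T κ (Complex.I * κ * m) θ) θ := by
  unfold T
  have h1 := (E_der κ θ).mul_const m
  have h2 := Complex.reCLM.hasFDerivAt.comp_hasDerivAt θ h1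
  have e : Complex.reCLM (E κ θ * (Complex.I * κ) * m) = (E κ θ * (Complex.I * κ * m)).re := by
    rw [Complex.reCLM_apply, mul_assoc]
  rw [e] at h2
  exact h2

lemma Gs_der {n : ℕ} (c₀ : ℝ) (κ : Fin n → ℝ) (m : Fin n → ℂ) (θ : ℝ) :
    HasDerivAt (Gs c₀ κ m) (Gs 0 κ (dm κ m) θ) θ := by
  have h1 : HasDerivAt (fun θ => ∑ j, T (κ j) (m j) θ)
      (∑ j, T (κ j) (Complex.I * κ j * m j) θ) θ :=
    HasDerivAt.fun_sum fun j _ => T_der (κ j) (m j) θ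
  have h2 := (h1.const_mul 2).const_sub c₀
  have e : Gs 0 κ (dm κ m) θ = -(2 * ∑ j, T (κ j) (Complex.I * κ j * m j) θ) := by
    unfold Gs dm
    ring
  rw [e]
  exact h2

lemma Gs_cont {n : ℕ} (c₀ : ℝ) (κ : Fin n → ℝ) (m : Fin n → ℂ) : Continuous (Gs c₀ κ m) :=
  continuous_iff_continuousAt.2 fun θ => (Gs_der c₀ κ m θ).continuousAt

lemma T_abs (κ : ℝ) (m : ℂ) (θ : ℝ) : |T κ m θ| ≤ ‖m‖ := by
  unfold T
  refine (Complex.abs_re_le_norm _).trans ?_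
  rw [norm_mul, norm_E, one_mul]

lemma Gs_abs {n : ℕ} (κ : Fin n → ℝ) (m : Fin n → ℂ) (θ K : ℝ) (h : ∀ j, ‖m j‖ ≤ K) :
    |Gs 0 κ m θ| ≤ 2 * (n * K) := by
  unfold Gs
  rw [zero_sub, abs_neg, abs_mul, abs_of_nonneg (by norm_num : (0 : ℝ) ≤ 2)]
  apply mul_le_mul_of_nonneg_left _ (by norm_num)
  refine (Finset.abs_sum_le_sum_abs _ _).trans ?_
  calc ∑ j : Fin n, |T (κ j) (m j) θ| ≤ ∑ _j : Fin n, K :=
        Finset.sum_le_sum fun j _ => (T_abs _ _ _).trans (h j)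
    _ = n * K := by rw [Finset.sum_const, Finset.card_univ, Fintype.card_fin, nsmul_eq_mul]

lemma Gs_zero {n : ℕ} (κ : Fin n → ℝ) (m : Fin n → ℂ) :
    Gs 0 κ m 0 = -(2 * ∑ j, (m j).re) := by
  unfold Gs T
  simp only [E_at_zero, one_mul, zero_sub]

lemma dm_re {n : ℕ} (κ : Fin n → ℝ) (m : Fin n → ℂ) (j : Fin n) :
    (dm κ m j).re = -(κ j * (m j).im) := by
  unfold dm
  simp [Complex.mul_re, Complex.mul_im]

lemma dm2_re {n : ℕ} (κ : Fin n → ℝ) (m : Fin n → ℂ) (j : Fin n) :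
    (dm κ (dm κ m) j).re = -(κ j ^ 2 * (m j).re) := by
  unfold dm
  simp [Complex.mul_re, Complex.mul_im]
  ring

/-! ### The energy and the quadratic form as such sums -/

/-- the frequencies -/
def kp (x : ℝ) : Fin 8 → ℝ :=
  ![1 / 2, (x + 1) / 2, -(x / 2), 0, 0, -(x / 2), -((x + 1) / 2), -((2 * x + 1) / 2)]

/-- the coefficients of the energy -/
def mm (a b c d : ℍ[ℝ]) : Fin 8 → ℂ :=
  ![cA a * cA b * star (cA c) * star (cA d),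
    -(cA a * cA b * cB c * star (cB d)),
    -(cB a * star (cB b) * star (cA c) * star (cA d)),
    cB a * star (cB b) * cB c * star (cB d),
    cA a * cB b * cA c * star (cB d),
    cA a * cB b * star (cB c) * star (cA d),
    cB a * star (cA b) * cA c * star (cB d),
    cB a * star (cA b) * star (cB c) * star (cA d)]

/-- the coefficients of the quadratic form -/
def m0 (a b c d : ℍ[ℝ]) : Fin 8 → ℂ :=
  ![-(((1 / 2 * (‖cB a‖ ^ 2 + ‖cB b‖ ^ 2 + ‖cB c‖ ^ 2 + ‖cB d‖ ^ 2) : ℝ) : ℂ)),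
    -(cB c * star (cB d)),
    -(cB a * star (cB b)),
    0,
    cB b * star (cB d),
    cB b * star (cB c),
    cB a * star (cB d),
    cB a * star (cB c)]

lemma energy (a b c d : ℍ[ℝ]) (x θ : ℝ) :
    pe a (bg θ ((x + 1) / 2) * b * bg θ ((x + 1) / 2)) c (bg θ (x / 2) * d * bg θ (x / 2)) =
      Gs 2 (kp x) (mm a b c d) θ := by
  have h : cA (a * (bg θ ((x + 1) / 2) * b * bg θ ((x + 1) / 2)) * star c *
      star (bg θ (x / 2) * d * bg θ (x / 2))) = ∑ j, E (kp x j) θ * mm a b c d j := by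
    rw [Fin.sum_univ_eight]
    have e1 : E (1 / 2) θ = E ((x + 1) / 2) θ * E (-(x / 2)) θ := by
      rw [← E_add]
      congr 1
      ring
    have e2 : E (-((2 * x + 1) / 2)) θ = E (-((x + 1) / 2)) θ * E (-(x / 2)) θ := by
      rw [← E_add]
      congr 1
      ring
    show _ = E (1 / 2) θ * (cA a * cA b * star (cA c) * star (cA d)) +
      E ((x + 1) / 2) θ * (-(cA a * cA b * cB c * star (cB d))) +
      E (-(x / 2)) θ * (-(cB a * star (cB b) * star (cA c) * star (cA d))) +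
      E 0 θ * (cB a * star (cB b) * cB c * star (cB d)) +
      E 0 θ * (cA a * cB b * cA c * star (cB d)) +
      E (-(x / 2)) θ * (cA a * cB b * star (cB c) * star (cA d)) +
      E (-((x + 1) / 2)) θ * (cB a * star (cA b) * cA c * star (cB d)) +
      E (-((2 * x + 1) / 2)) θ * (cB a * star (cA b) * star (cB c) * star (cA d))
    rw [e1, e2, E_zero]
    have hb1 := cA_frame θ ((x + 1) / 2) b
    have hb2 := cB_frame θ ((x + 1) / 2) b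
    have hd1 := cA_frame θ (x / 2) d
    have hd2 := cB_frame θ (x / 2) d
    obtain ⟨b', hb'⟩ : ∃ b', b' = bg θ ((x + 1) / 2) * b * bg θ ((x + 1) / 2) := ⟨_, rfl⟩
    obtain ⟨d', hd'⟩ : ∃ d', d' = bg θ (x / 2) * d * bg θ (x / 2) := ⟨_, rfl⟩
    rw [← hb'] at hb1 hb2 ⊢
    rw [← hd'] at hd1 hd2 ⊢
    have s1 := star_E ((x + 1) / 2) θ
    have s2 := star_E (x / 2) θ
    simp only [cA_mul, cB_mul, cA_star, cB_star, hb1, hb2, hd1, hd2]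
    simp only [star_mul', star_neg, star_star, s1, s2]
    ring
  unfold pe Gs T
  have h2 : (a * (bg θ ((x + 1) / 2) * b * bg θ ((x + 1) / 2)) * star c *
      star (bg θ (x / 2) * d * bg θ (x / 2))).re = (cA (a * (bg θ ((x + 1) / 2) * b *
        bg θ ((x + 1) / 2)) * star c * star (bg θ (x / 2) * d * bg θ (x / 2)))).re := rfl
  rw [h2, h, Complex.re_sum]

lemma ch_eq (q : ℍ[ℝ]) : ch q = ((Real.sqrt 2 : ℝ) : ℂ) * cB q := by
  unfold ch cB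
  congr 1
  apply Complex.ext
  · simp
  · simp

lemma sq2 : ((Real.sqrt 2 : ℝ) : ℂ) * ((Real.sqrt 2 : ℝ) : ℂ) = 2 := by
  rw [← Complex.ofReal_mul, Real.mul_self_sqrt (by norm_num)]
  norm_num

lemma ee_eq (θ x : ℝ) : ee θ x = E x θ := by
  unfold ee E
  congr 1
  rw [mul_comm Complex.I]
  congr 2
  ring

lemma form (a b c d : ℍ[ℝ]) (x θ : ℝ) :
    q12 θ x (ch a) (ch b) (ch c) (ch d) = Gs 0 (kp x) (m0 a b c d) θ := by
  have hn : ∀ q : ℍ[ℝ], ‖ch q‖ ^ 2 = 2 * ‖cB q‖ ^ 2 := by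
    intro q
    rw [ch_eq, norm_mul, mul_pow, Complex.norm_real, Real.norm_eq_abs, sq_abs,
      Real.sq_sqrt (by norm_num)]
  have hp : ∀ p q : ℍ[ℝ], ∀ z : ℂ, z * ch p * star (ch q) = 2 * (z * (cB p * star (cB q))) := by
    intro p q z
    rw [ch_eq, ch_eq, star_mul']
    have hs : star ((Real.sqrt 2 : ℝ) : ℂ) = ((Real.sqrt 2 : ℝ) : ℂ) := Complex.conj_ofReal _
    rw [hs]
    linear_combination (z * (cB p * star (cB q))) * sq2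
  have hc : Real.cos (θ / 2) = (E (1 / 2) θ).re := by
    unfold E
    rw [Complex.exp_ofReal_mul_I_re]
    congr 1
    ring
  unfold q12 Gs T
  rw [Fin.sum_univ_eight]
  show _ = 0 - 2 * ((E (1 / 2) θ *
      (-(((1 / 2 * (‖cB a‖ ^ 2 + ‖cB b‖ ^ 2 + ‖cB c‖ ^ 2 + ‖cB d‖ ^ 2) : ℝ) : ℂ)))).re +
    (E ((x + 1) / 2) θ * (-(cB c * star (cB d)))).re +
    (E (-(x / 2)) θ * (-(cB a * star (cB b)))).re +
    (E 0 θ * 0).re +
    (E 0 θ * (cB b * star (cB d))).re +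
    (E (-(x / 2)) θ * (cB b * star (cB c))).re +
    (E (-((x + 1) / 2)) θ * (cB a * star (cB d))).re +
    (E (-((2 * x + 1) / 2)) θ * (cB a * star (cB c))).re)
  rw [hn, hn, hn, hn, hc]
  simp only [ee_eq]
  have h1 : ch b * star (ch d) = 2 * (cB b * star (cB d)) := by
    have := hp b d 1
    rwa [one_mul, one_mul] at this
  rw [hp c d, hp a b, h1, hp b c, hp a d, hp a c, E_zero]
  simp only [Complex.add_re, Complex.sub_re, Complex.neg_re, mul_neg, Complex.re_mul_ofReal,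
    one_mul, mul_zero, Complex.zero_re]
  have h2 : ∀ z : ℂ, (2 * z).re = 2 * z.re := by
    intro z
    simp
  simp only [h2]
  ring

/-! ### Estimates -/

lemma csq (z : ℂ) : ‖z‖ ^ 2 = z.re ^ 2 + z.im ^ 2 := by
  rw [Complex.sq_norm, Complex.normSq_apply]
  ring

lemma qsq (q : ℍ[ℝ]) : ‖q‖ ^ 2 = q.re ^ 2 + q.imI ^ 2 + q.imJ ^ 2 + q.imK ^ 2 := by
  rw [sq, ← Quaternion.normSq_eq_norm_mul_self, Quaternion.normSq_def']

/-- the facts on a unit quaternion and its distance `n` from `1` -/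
lemma unit_facts (q : SU) : ‖cA (q : ℍ[ℝ])‖ ≤ 1 ∧ ‖cB (q : ℍ[ℝ])‖ ≤ 1 ∧
    ‖cA (q : ℍ[ℝ]) - 1‖ ≤ ‖(q : ℍ[ℝ]) - 1‖ ∧ ‖cB (q : ℍ[ℝ])‖ ≤ ‖(q : ℍ[ℝ]) - 1‖ ∧
    ‖(q : ℍ[ℝ]) - 1‖ ≤ 2 ∧ |(cA (q : ℍ[ℝ])).re - 1| ≤ ‖(q : ℍ[ℝ]) - 1‖ ^ 2 ∧
    (cA (q : ℍ[ℝ])).re - 1 = -(1 / 2) * (((cA (q : ℍ[ℝ])).re - 1) ^ 2 + (cA (q : ℍ[ℝ])).im ^ 2 +
      ‖cB (q : ℍ[ℝ])‖ ^ 2) := by
  have hn0 : 0 ≤ ‖(q : ℍ[ℝ]) - 1‖ := norm_nonneg _
  have hq : ‖(q : ℍ[ℝ])‖ = 1 := by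
    have := q.2
    rwa [mem_sphere_zero_iff_norm] at this
  have h1 : (q : ℍ[ℝ]).re ^ 2 + (q : ℍ[ℝ]).imI ^ 2 + (q : ℍ[ℝ]).imJ ^ 2 + (q : ℍ[ℝ]).imK ^ 2 = 1 := by
    rw [← qsq, hq]
    norm_num
  have h2 : ‖(q : ℍ[ℝ]) - 1‖ ^ 2 = ((q : ℍ[ℝ]).re - 1) ^ 2 + (q : ℍ[ℝ]).imI ^ 2 +
      (q : ℍ[ℝ]).imJ ^ 2 + (q : ℍ[ℝ]).imK ^ 2 := by
    rw [qsq]
    simp
  have hA : ‖cA (q : ℍ[ℝ])‖ ^ 2 = (q : ℍ[ℝ]).re ^ 2 + (q : ℍ[ℝ]).imK ^ 2 := csq _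
  have hB : ‖cB (q : ℍ[ℝ])‖ ^ 2 = (q : ℍ[ℝ]).imI ^ 2 + (q : ℍ[ℝ]).imJ ^ 2 := csq _
  have hA1 : ‖cA (q : ℍ[ℝ]) - 1‖ ^ 2 = ((q : ℍ[ℝ]).re - 1) ^ 2 + (q : ℍ[ℝ]).imK ^ 2 := by
    rw [csq]
    simp [cA]
  have hre : (cA (q : ℍ[ℝ])).re = (q : ℍ[ℝ]).re := rfl
  have him : (cA (q : ℍ[ℝ])).im = (q : ℍ[ℝ]).imK := rfl
  have i0 := sq_nonneg (q : ℍ[ℝ]).imI
  have j0 := sq_nonneg (q : ℍ[ℝ]).imJ
  have k0 := sq_nonneg (q : ℍ[ℝ]).imK
  have l0 := sq_nonneg (q : ℍ[ℝ]).re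
  have m0 := sq_nonneg ((q : ℍ[ℝ]).re - 1)
  have hr1 : (q : ℍ[ℝ]).re ≤ 1 := by nlinarith
  have hr2 : -1 ≤ (q : ℍ[ℝ]).re := by nlinarith
  have hn : ‖(q : ℍ[ℝ]) - 1‖ ^ 2 = 2 * (1 - (q : ℍ[ℝ]).re) := by
    rw [h2]
    linarith
  refine ⟨?_, ?_, ?_, ?_, ?_, ?_, ?_⟩
  · refine abs_le_of_sq_le_sq' ?_ (by norm_num) |>.2
    rw [hA]
    linarith
  · refine abs_le_of_sq_le_sq' ?_ (by norm_num) |>.2
    rw [hB]
    linarith
  · refine abs_le_of_sq_le_sq' ?_ hn0 |>.2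
    rw [hA1, h2]
    linarith
  · refine abs_le_of_sq_le_sq' ?_ hn0 |>.2
    rw [hB, h2]
    linarith
  · refine abs_le_of_sq_le_sq' ?_ (by norm_num) |>.2
    rw [hn]
    linarith
  · rw [hre, hn, abs_le]
    constructor <;> linarith
  · rw [hre, him, hB]
    linarith

/-- the product of four numbers near `1` -/
lemma four {w1 w2 w3 w4 : ℂ} {B1 B2 B3 B4 f : ℝ} (hf0 : 0 ≤ f) (hf8 : f ≤ 8)
    (n1 : ‖w1 - 1‖ ≤ f) (n2 : ‖w2 - 1‖ ≤ f) (n3 : ‖w3 - 1‖ ≤ f) (n4 : ‖w4 - 1‖ ≤ f)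
    (r1 : |w1.re - 1| ≤ f ^ 2) (r2 : |w2.re - 1| ≤ f ^ 2) (r3 : |w3.re - 1| ≤ f ^ 2)
    (r4 : |w4.re - 1| ≤ f ^ 2)
    (e1 : w1.re - 1 = -(1 / 2) * ((w1.re - 1) ^ 2 + w1.im ^ 2 + B1))
    (e2 : w2.re - 1 = -(1 / 2) * ((w2.re - 1) ^ 2 + w2.im ^ 2 + B2))
    (e3 : w3.re - 1 = -(1 / 2) * ((w3.re - 1) ^ 2 + w3.im ^ 2 + B3))
    (e4 : w4.re - 1 = -(1 / 2) * ((w4.re - 1) ^ 2 + w4.im ^ 2 + B4)) :
    |(w1 * w2 * w3 * w4).im - (w1.im + w2.im + w3.im + w4.im)| ≤ 24 * f ^ 3 ∧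
    |(w1 * w2 * w3 * w4).re - 1 + 1 / 2 * (w1.im + w2.im + w3.im + w4.im) ^ 2 +
      1 / 2 * (B1 + B2 + B3 + B4)| ≤ 76 * f ^ 3 := by
  obtain ⟨z1, hz1⟩ : ∃ z, z = w1 - 1 := ⟨_, rfl⟩
  obtain ⟨z2, hz2⟩ : ∃ z, z = w2 - 1 := ⟨_, rfl⟩
  obtain ⟨z3, hz3⟩ : ∃ z, z = w3 - 1 := ⟨_, rfl⟩
  obtain ⟨z4, hz4⟩ : ∃ z, z = w4 - 1 := ⟨_, rfl⟩
  obtain ⟨R, hR⟩ : ∃ R : ℂ, R = z1 * z2 * z3 + z1 * z2 * z4 + z1 * z3 * z4 + z2 * z3 * z4 +
    z1 * z2 * z3 * z4 := ⟨_, rfl⟩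
  rw [← hz1] at n1
  rw [← hz2] at n2
  rw [← hz3] at n3
  rw [← hz4] at n4
  have hprod : w1 * w2 * w3 * w4 = 1 + (z1 + z2 + z3 + z4) + (z1 * z2 + z1 * z3 + z1 * z4 + z2 * z3 +
      z2 * z4 + z3 * z4) + R := by
    rw [hR, hz1, hz2, hz3, hz4]
    ring
  have p0 : ∀ z : ℂ, ‖z‖ ≤ f → 0 ≤ ‖z‖ := fun z _ => norm_nonneg z
  have t3 : ∀ x y z : ℂ, ‖x‖ ≤ f → ‖y‖ ≤ f → ‖z‖ ≤ f → ‖x * y * z‖ ≤ f ^ 3 := by
    intro x y z hx hy hz
    rw [norm_mul, norm_mul]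
    calc ‖x‖ * ‖y‖ * ‖z‖ ≤ f * f * f :=
          mul_le_mul (mul_le_mul hx hy (norm_nonneg _) hf0) hz (norm_nonneg _) (by positivity)
      _ = f ^ 3 := by ring
  have hRn : ‖R‖ ≤ 12 * f ^ 3 := by
    have a1 := t3 z1 z2 z3 n1 n2 n3
    have a2 := t3 z1 z2 z4 n1 n2 n4
    have a3 := t3 z1 z3 z4 n1 n3 n4
    have a4 := t3 z2 z3 z4 n2 n3 n4
    have a5 : ‖z1 * z2 * z3 * z4‖ ≤ 8 * f ^ 3 := by
      rw [norm_mul]
      calc ‖z1 * z2 * z3‖ * ‖z4‖ ≤ f ^ 3 * 8 :=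
            mul_le_mul a1 (n4.trans hf8) (norm_nonneg _) (by positivity)
        _ = 8 * f ^ 3 := by ring
    rw [hR]
    refine (norm_add_le _ _).trans ?_
    have b1 := norm_add_le (z1 * z2 * z3 + z1 * z2 * z4 + z1 * z3 * z4) (z2 * z3 * z4)
    have b2 := norm_add_le (z1 * z2 * z3 + z1 * z2 * z4) (z1 * z3 * z4)
    have b3 := norm_add_le (z1 * z2 * z3) (z1 * z2 * z4)
    linarith
  have hRr : |R.re| ≤ 12 * f ^ 3 := (Complex.abs_re_le_norm R).trans hRn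
  have hRi : |R.im| ≤ 12 * f ^ 3 := (Complex.abs_im_le_norm R).trans hRn
  have i1 : |z1.im| ≤ f := (Complex.abs_im_le_norm z1).trans n1
  have i2 : |z2.im| ≤ f := (Complex.abs_im_le_norm z2).trans n2
  have i3 : |z3.im| ≤ f := (Complex.abs_im_le_norm z3).trans n3
  have i4 : |z4.im| ≤ f := (Complex.abs_im_le_norm z4).trans n4
  have c1 : w1.re = 1 + z1.re := by rw [hz1]; simp
  have c2 : w2.re = 1 + z2.re := by rw [hz2]; simp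
  have c3 : w3.re = 1 + z3.re := by rw [hz3]; simp
  have c4 : w4.re = 1 + z4.re := by rw [hz4]; simp
  have d1 : w1.im = z1.im := by rw [hz1]; simp
  have d2 : w2.im = z2.im := by rw [hz2]; simp
  have d3 : w3.im = z3.im := by rw [hz3]; simp
  have d4 : w4.im = z4.im := by rw [hz4]; simp
  rw [c1, add_sub_cancel_left] at r1 e1
  rw [c2, add_sub_cancel_left] at r2 e2
  rw [c3, add_sub_cancel_left] at r3 e3
  rw [c4, add_sub_cancel_left] at r4 e4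
  rw [d1] at e1
  rw [d2] at e2
  rw [d3] at e3
  rw [d4] at e4
  have hIm : (w1 * w2 * w3 * w4).im = z1.im + z2.im + z3.im + z4.im +
      (z1.re * z2.im + z1.im * z2.re + (z1.re * z3.im + z1.im * z3.re) +
        (z1.re * z4.im + z1.im * z4.re) + (z2.re * z3.im + z2.im * z3.re) +
        (z2.re * z4.im + z2.im * z4.re) + (z3.re * z4.im + z3.im * z4.re)) + R.im := by
    rw [hprod]
    simp only [Complex.add_im, Complex.mul_im, Complex.one_im]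
    ring
  have hRe : (w1 * w2 * w3 * w4).re = 1 + (z1.re + z2.re + z3.re + z4.re) +
      (z1.re * z2.re - z1.im * z2.im + (z1.re * z3.re - z1.im * z3.im) +
        (z1.re * z4.re - z1.im * z4.im) + (z2.re * z3.re - z2.im * z3.im) +
        (z2.re * z4.re - z2.im * z4.im) + (z3.re * z4.re - z3.im * z4.im)) + R.re := by
    rw [hprod]
    simp only [Complex.add_re, Complex.mul_re, Complex.one_re]
  have pr : ∀ s k : ℝ, |s| ≤ f ^ 2 → |k| ≤ f → |s * k| ≤ f ^ 3 := by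
    intro s k hs hk
    rw [abs_mul]
    calc |s| * |k| ≤ f ^ 2 * f := mul_le_mul hs hk (abs_nonneg _) (by positivity)
      _ = f ^ 3 := by ring
  have ss : ∀ s t : ℝ, |s| ≤ f ^ 2 → |t| ≤ f ^ 2 → |s * t| ≤ 8 * f ^ 3 := by
    intro s t hs ht
    rw [abs_mul]
    calc |s| * |t| ≤ f ^ 2 * f ^ 2 := mul_le_mul hs ht (abs_nonneg _) (by positivity)
      _ = f * f ^ 3 := by ring
      _ ≤ 8 * f ^ 3 := mul_le_mul_of_nonneg_right hf8 (by positivity)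
  constructor
  · rw [hIm, d1, d2, d3, d4]
    have q1 := abs_le.1 (pr _ _ r1 i2)
    have q2 := abs_le.1 (pr _ _ r2 i1)
    have q3 := abs_le.1 (pr _ _ r1 i3)
    have q4 := abs_le.1 (pr _ _ r3 i1)
    have q5 := abs_le.1 (pr _ _ r1 i4)
    have q6 := abs_le.1 (pr _ _ r4 i1)
    have q7 := abs_le.1 (pr _ _ r2 i3)
    have q8 := abs_le.1 (pr _ _ r3 i2)
    have q9 := abs_le.1 (pr _ _ r2 i4)
    have q10 := abs_le.1 (pr _ _ r4 i2)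
    have q11 := abs_le.1 (pr _ _ r3 i4)
    have q12' := abs_le.1 (pr _ _ r4 i3)
    have q13 := abs_le.1 hRi
    rw [abs_le]
    constructor <;> linarith [q1.1, q1.2, q2.1, q2.2, q3.1, q3.2, q4.1, q4.2, q5.1, q5.2, q6.1,
      q6.2, q7.1, q7.2, q8.1, q8.2, q9.1, q9.2, q10.1, q10.2, q11.1, q11.2, q12'.1, q12'.2, q13.1,
      q13.2]
  · rw [hRe, d1, d2, d3, d4]
    have q1 := abs_le.1 (ss _ _ r1 r2)
    have q2 := abs_le.1 (ss _ _ r1 r3)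
    have q3 := abs_le.1 (ss _ _ r1 r4)
    have q4 := abs_le.1 (ss _ _ r2 r3)
    have q5 := abs_le.1 (ss _ _ r2 r4)
    have q6 := abs_le.1 (ss _ _ r3 r4)
    have u1 := abs_le.1 (ss _ _ r1 r1)
    have u2 := abs_le.1 (ss _ _ r2 r2)
    have u3 := abs_le.1 (ss _ _ r3 r3)
    have u4 := abs_le.1 (ss _ _ r4 r4)
    have q13 := abs_le.1 hRr
    have key : 1 + (z1.re + z2.re + z3.re + z4.re) +
      (z1.re * z2.re - z1.im * z2.im + (z1.re * z3.re - z1.im * z3.im) +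
        (z1.re * z4.re - z1.im * z4.im) + (z2.re * z3.re - z2.im * z3.im) +
        (z2.re * z4.re - z2.im * z4.im) + (z3.re * z4.re - z3.im * z4.im)) + R.re - 1 +
      1 / 2 * (z1.im + z2.im + z3.im + z4.im) ^ 2 + 1 / 2 * (B1 + B2 + B3 + B4) =
      -(1 / 2) * (z1.re * z1.re + z2.re * z2.re + z3.re * z3.re + z4.re * z4.re) +
        (z1.re * z2.re + z1.re * z3.re + z1.re * z4.re + z2.re * z3.re + z2.re * z4.re +
          z3.re * z4.re) + R.re := by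
      linear_combination e1 + e2 + e3 + e4
    rw [key, abs_le]
    constructor <;> linarith [q1.1, q1.2, q2.1, q2.2, q3.1, q3.2, q4.1, q4.2, q5.1, q5.2, q6.1,
      q6.2, u1.1, u1.2, u2.1, u2.2, u3.1, u3.2, u4.1, u4.2, q13.1, q13.2]

/-- replacing two factors near `1` by `1` -/
lemma repl {α γ β δ : ℂ} {f : ℝ} (hf0 : 0 ≤ f) (h1 : ‖α - 1‖ ≤ f) (h2 : ‖γ - 1‖ ≤ f)
    (h3 : ‖γ‖ ≤ 1) (h4 : ‖β‖ ≤ f) (h5 : ‖δ‖ ≤ f) : ‖α * γ * (β * δ) - β * δ‖ ≤ 2 * f ^ 3 := by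
  have e : α * γ * (β * δ) - β * δ = ((α - 1) * γ + (γ - 1)) * (β * δ) := by ring
  rw [e, norm_mul, norm_mul β δ]
  have h6 : ‖(α - 1) * γ + (γ - 1)‖ ≤ 2 * f := by
    refine (norm_add_le _ _).trans ?_
    rw [norm_mul]
    have : ‖α - 1‖ * ‖γ‖ ≤ f * 1 := mul_le_mul h1 h3 (norm_nonneg _) hf0
    linarith
  calc ‖(α - 1) * γ + (γ - 1)‖ * (‖β‖ * ‖δ‖) ≤ (2 * f) * (f * f) :=
        mul_le_mul h6 (mul_le_mul h4 h5 (norm_nonneg _) hf0) (by positivity) (by positivity)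
    _ = 2 * f ^ 3 := by ring

lemma kp_abs {x : ℝ} (hx : 0 ≤ x) (j : Fin 8) : |kp x j| ≤ 1 + x := by
  rw [abs_le]
  fin_cases j
  · show -(1 + x) ≤ 1 / 2 ∧ 1 / 2 ≤ 1 + x
    constructor <;> linarith
  · show -(1 + x) ≤ (x + 1) / 2 ∧ (x + 1) / 2 ≤ 1 + x
    constructor <;> linarith
  · show -(1 + x) ≤ -(x / 2) ∧ -(x / 2) ≤ 1 + x
    constructor <;> linarith
  · show -(1 + x) ≤ 0 ∧ 0 ≤ 1 + x
    constructor <;> linarith
  · show -(1 + x) ≤ 0 ∧ 0 ≤ 1 + x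
    constructor <;> linarith
  · show -(1 + x) ≤ -(x / 2) ∧ -(x / 2) ≤ 1 + x
    constructor <;> linarith
  · show -(1 + x) ≤ -((x + 1) / 2) ∧ -((x + 1) / 2) ≤ 1 + x
    constructor <;> linarith
  · show -(1 + x) ≤ -((2 * x + 1) / 2) ∧ -((2 * x + 1) / 2) ≤ 1 + x
    constructor <;> linarith

lemma n4 {u v w z : ℂ} (h1 : ‖u‖ ≤ 1) (h2 : ‖v‖ ≤ 1) (h3 : ‖w‖ ≤ 1) (h4 : ‖z‖ ≤ 1) :
    ‖u * v * w * z‖ ≤ 1 := by
  rw [norm_mul, norm_mul, norm_mul]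
  exact mul_le_one₀ (mul_le_one₀ (mul_le_one₀ h1 (norm_nonneg _) h2) (norm_nonneg _) h3)
    (norm_nonneg _) h4

lemma mm_norm (a b c d : SU) (j : Fin 8) : ‖mm a b c d j‖ ≤ 1 := by
  obtain ⟨a1, a2, -⟩ := unit_facts a
  obtain ⟨b1, b2, -⟩ := unit_facts b
  obtain ⟨c1, c2, -⟩ := unit_facts c
  obtain ⟨d1, d2, -⟩ := unit_facts d
  have s : ∀ z : ℂ, ‖z‖ ≤ 1 → ‖star z‖ ≤ 1 := fun z hz => by rwa [norm_star]
  fin_cases j
  · exact n4 a1 b1 (s _ c1) (s _ d1)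
  · show ‖-(cA a * cA b * cB c * star (cB d))‖ ≤ 1
    rw [norm_neg]
    exact n4 a1 b1 c2 (s _ d2)
  · show ‖-(cB a * star (cB b) * star (cA c) * star (cA d))‖ ≤ 1
    rw [norm_neg]
    exact n4 a2 (s _ b2) (s _ c1) (s _ d1)
  · exact n4 a2 (s _ b2) c2 (s _ d2)
  · exact n4 a1 b2 c1 (s _ d2)
  · exact n4 a1 b2 (s _ c2) (s _ d1)
  · exact n4 a2 (s _ b1) c1 (s _ d2)
  · exact n4 a2 (s _ b1) (s _ c2) (s _ d1)

lemma dm_norm {n : ℕ} {κ : Fin n → ℝ} {m : Fin n → ℂ} {y K : ℝ} (hy : ∀ j, |κ j| ≤ y)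
    (hK : ∀ j, ‖m j‖ ≤ K) (j : Fin n) : ‖dm κ m j‖ ≤ y * K := by
  unfold dm
  rw [norm_mul, norm_mul, Complex.norm_I, one_mul, Complex.norm_real, Real.norm_eq_abs]
  exact mul_le_mul (hy j) (hK j) (norm_nonneg _) ((abs_nonneg _).trans (hy j))

/-- the estimates of the coefficients -/
lemma main_est (a b c d : SU) (f : ℝ)
    (hf : f = ‖(a : ℍ[ℝ]) - 1‖ + ‖(b : ℍ[ℝ]) - 1‖ + ‖(c : ℍ[ℝ]) - 1‖ + ‖(d : ℍ[ℝ]) - 1‖) :
    0 ≤ f ∧
    |(mm a b c d 0).im - ((a : ℍ[ℝ]).imK + (b : ℍ[ℝ]).imK - (c : ℍ[ℝ]).imK - (d : ℍ[ℝ]).imK)| ≤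
      24 * f ^ 3 ∧
    |(mm a b c d 0).re - 1 + 1 / 2 * ((a : ℍ[ℝ]).imK + (b : ℍ[ℝ]).imK - (c : ℍ[ℝ]).imK -
      (d : ℍ[ℝ]).imK) ^ 2 + 1 / 2 * (‖cB a‖ ^ 2 + ‖cB b‖ ^ 2 + ‖cB c‖ ^ 2 + ‖cB d‖ ^ 2)| ≤
      76 * f ^ 3 ∧
    ‖mm a b c d 1 - m0 a b c d 1‖ ≤ 2 * f ^ 3 ∧ ‖mm a b c d 2 - m0 a b c d 2‖ ≤ 2 * f ^ 3 ∧
    ‖mm a b c d 5 - m0 a b c d 5‖ ≤ 2 * f ^ 3 ∧ ‖mm a b c d 6 - m0 a b c d 6‖ ≤ 2 * f ^ 3 ∧
    ‖mm a b c d 7 - m0 a b c d 7‖ ≤ 2 * f ^ 3 := by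
  obtain ⟨a1, a2, a3, a4, a5, a6, a7⟩ := unit_facts a
  obtain ⟨b1, b2, b3, b4, b5, b6, b7⟩ := unit_facts b
  obtain ⟨c1, c2, c3, c4, c5, c6, c7⟩ := unit_facts c
  obtain ⟨d1, d2, d3, d4, d5, d6, d7⟩ := unit_facts d
  have na := norm_nonneg ((a : ℍ[ℝ]) - 1)
  have nb := norm_nonneg ((b : ℍ[ℝ]) - 1)
  have nc := norm_nonneg ((c : ℍ[ℝ]) - 1)
  have nd := norm_nonneg ((d : ℍ[ℝ]) - 1)
  have ha : ‖(a : ℍ[ℝ]) - 1‖ ≤ f := by linarith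
  have hb : ‖(b : ℍ[ℝ]) - 1‖ ≤ f := by linarith
  have hc : ‖(c : ℍ[ℝ]) - 1‖ ≤ f := by linarith
  have hd : ‖(d : ℍ[ℝ]) - 1‖ ≤ f := by linarith
  have hf0 : 0 ≤ f := by linarith
  have hf8 : f ≤ 8 := by linarith
  have ssub : ∀ z : ℂ, ‖star z - 1‖ = ‖z - 1‖ := by
    intro z
    have h : star z - 1 = star (z - 1) := by rw [star_sub, star_one]
    rw [h, norm_star]
  have s1 : ∀ z : ℂ, ‖z‖ ≤ 1 → ‖star z‖ ≤ 1 := fun z hz => by rwa [norm_star]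
  have sf : ∀ z : ℂ, ‖z‖ ≤ f → ‖star z‖ ≤ f := fun z hz => by rwa [norm_star]
  have sre : ∀ z : ℂ, (star z).re = z.re := fun z => Complex.conj_re z
  have sim : ∀ z : ℂ, (star z).im = -z.im := fun z => Complex.conj_im z
  have pw : ∀ t : ℝ, 0 ≤ t → t ≤ f → t ^ 2 ≤ f ^ 2 := fun t h0 h1 => pow_le_pow_left₀ h0 h1 2
  have h4 := four (w1 := cA a) (w2 := cA b) (w3 := star (cA c)) (w4 := star (cA d))
    (B1 := ‖cB a‖ ^ 2) (B2 := ‖cB b‖ ^ 2) (B3 := ‖cB c‖ ^ 2) (B4 := ‖cB d‖ ^ 2) hf0 hf8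
    (a3.trans ha) (b3.trans hb) (by rw [ssub]; exact c3.trans hc) (by rw [ssub]; exact d3.trans hd)
    (a6.trans (pw _ na ha)) (b6.trans (pw _ nb hb)) (by rw [sre]; exact c6.trans (pw _ nc hc))
    (by rw [sre]; exact d6.trans (pw _ nd hd)) a7 b7
    (by rw [sre, sim, neg_sq]; exact c7) (by rw [sre, sim, neg_sq]; exact d7)
  have hsum : (cA a).im + (cA b).im + (star (cA c)).im + (star (cA d)).im =
      (a : ℍ[ℝ]).imK + (b : ℍ[ℝ]).imK - (c : ℍ[ℝ]).imK - (d : ℍ[ℝ]).imK := by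
    rw [sim, sim]
    show (a : ℍ[ℝ]).imK + (b : ℍ[ℝ]).imK + -(c : ℍ[ℝ]).imK + -(d : ℍ[ℝ]).imK = _
    ring
  rw [hsum] at h4
  refine ⟨hf0, h4.1, h4.2, ?_, ?_, ?_, ?_, ?_⟩
  · have h := repl hf0 (a3.trans ha) (b3.trans hb) b1 (c4.trans hc) (sf _ (d4.trans hd))
    have e : mm a b c d 1 - m0 a b c d 1 =
        -(cA a * cA b * (cB c * star (cB d)) - cB c * star (cB d)) := by
      show -(cA a * cA b * cB c * star (cB d)) - -(cB c * star (cB d)) = _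
      ring
    rw [e, norm_neg]
    exact h
  · have h := repl hf0 ((ssub _).le.trans (c3.trans hc)) ((ssub _).le.trans (d3.trans hd))
      (s1 _ d1) (a4.trans ha) (sf _ (b4.trans hb))
    have e : mm a b c d 2 - m0 a b c d 2 =
        -(star (cA c) * star (cA d) * (cB a * star (cB b)) - cB a * star (cB b)) := by
      show -(cB a * star (cB b) * star (cA c) * star (cA d)) - -(cB a * star (cB b)) = _
      ring
    rw [e, norm_neg]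
    exact h
  · have h := repl hf0 (a3.trans ha) ((ssub _).le.trans (d3.trans hd))
      (s1 _ d1) (b4.trans hb) (sf _ (c4.trans hc))
    have e : mm a b c d 5 - m0 a b c d 5 =
        cA a * star (cA d) * (cB b * star (cB c)) - cB b * star (cB c) := by
      show cA a * cB b * star (cB c) * star (cA d) - cB b * star (cB c) = _
      ring
    rw [e]
    exact h
  · have h := repl hf0 ((ssub _).le.trans (b3.trans hb)) (c3.trans hc) c1 (a4.trans ha)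
      (sf _ (d4.trans hd))
    have e : mm a b c d 6 - m0 a b c d 6 =
        star (cA b) * cA c * (cB a * star (cB d)) - cB a * star (cB d) := by
      show cB a * star (cA b) * cA c * star (cB d) - cB a * star (cB d) = _
      ring
    rw [e]
    exact h
  · have h := repl hf0 ((ssub _).le.trans (b3.trans hb)) ((ssub _).le.trans (d3.trans hd))
      (s1 _ d1) (a4.trans ha) (sf _ (c4.trans hc))
    have e : mm a b c d 7 - m0 a b c d 7 =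
        star (cA b) * star (cA d) * (cB a * star (cB c)) - cB a * star (cB c) := by
      show cB a * star (cA b) * star (cB c) * star (cA d) - cB a * star (cB c) = _
      ring
    rw [e]
    exact h

/-- **AF-P12.** -/
theorem tp12 : S_P12 := by
  refine ⟨100, fun a b c d x hx => ?_⟩
  have hfun : (fun θ => pe a (bg θ ((x + 1) / 2) * b * bg θ ((x + 1) / 2)) c
      (bg θ (x / 2) * d * bg θ (x / 2))) = Gs 2 (kp x) (mm a b c d) :=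
    funext fun θ => energy a b c d x θ
  have hq : (fun θ => q12 θ x (ch a) (ch b) (ch c) (ch d)) = Gs 0 (kp x) (m0 a b c d) :=
    funext fun θ => form a b c d x θ
  have hq1 : deriv (Gs 0 (kp x) (m0 a b c d)) = Gs 0 (kp x) (dm (kp x) (m0 a b c d)) :=
    funext fun θ => (Gs_der _ _ _ θ).deriv
  have hq2 : deriv (Gs 0 (kp x) (dm (kp x) (m0 a b c d))) =
      Gs 0 (kp x) (dm (kp x) (dm (kp x) (m0 a b c d))) :=
    funext fun θ => (Gs_der _ _ _ θ).deriv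
  have hk := fun j => kp_abs hx j
  have hx1 : 1 ≤ 1 + x := by linarith
  have hx2 : 1 + x ≤ (1 + x) ^ 2 := by nlinarith
  have hx3 : 1 ≤ (1 + x) ^ 2 := by linarith
  have hd1 := fun j => dm_norm hk (fun j => mm_norm a b c d j) j
  have hd2 := fun j => dm_norm hk hd1 j
  refine ⟨Gs 0 (kp x) (dm (kp x) (mm a b c d)), Gs 0 (kp x) (dm (kp x) (dm (kp x) (mm a b c d))),
    Gs_cont _ _ _, Gs_cont _ _ _, fun θ => ⟨?_, Gs_der _ _ _ θ, ?_, ?_⟩, ?_, ?_⟩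
  · rw [hfun]
    exact Gs_der _ _ _ θ
  · refine (Gs_abs _ _ θ _ hd1).trans ?_
    push_cast
    nlinarith
  · refine (Gs_abs _ _ θ _ hd2).trans ?_
    push_cast
    nlinarith
  · obtain ⟨f, hf⟩ : ∃ f, f = ‖(a : ℍ[ℝ]) - 1‖ + ‖(b : ℍ[ℝ]) - 1‖ + ‖(c : ℍ[ℝ]) - 1‖ +
      ‖(d : ℍ[ℝ]) - 1‖ := ⟨_, rfl⟩
    obtain ⟨hf0, g0, -, g1, g2, g5, g6, g7⟩ := main_est a b c d f hf
    rw [← hf, hq, hq1, Gs_zero, Gs_zero]
    simp only [dm_re]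
    rw [Fin.sum_univ_eight, Fin.sum_univ_eight]
    have hN0 : (m0 a b c d 0).im = 0 := by
      show (-(((1 / 2 * (‖cB a‖ ^ 2 + ‖cB b‖ ^ 2 + ‖cB c‖ ^ 2 + ‖cB d‖ ^ 2) : ℝ) : ℂ))).im = 0
      rw [Complex.neg_im, Complex.ofReal_im, neg_zero]
    have hb : ∀ j, ‖mm a b c d j - m0 a b c d j‖ ≤ 2 * f ^ 3 →
        |kp x j * ((mm a b c d j).im - (m0 a b c d j).im)| ≤ 2 * ((1 + x) ^ 2 * f ^ 3) := by
      intro j hj
      rw [abs_mul, ← Complex.sub_im]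
      have h1 := (Complex.abs_im_le_norm (mm a b c d j - m0 a b c d j)).trans hj
      calc |kp x j| * |(mm a b c d j - m0 a b c d j).im| ≤ (1 + x) * (2 * f ^ 3) :=
            mul_le_mul (hk j) h1 (abs_nonneg _) (by linarith)
        _ ≤ (1 + x) ^ 2 * (2 * f ^ 3) := mul_le_mul_of_nonneg_right hx2 (by positivity)
        _ = 2 * ((1 + x) ^ 2 * f ^ 3) := by ring
    have w1 := abs_le.1 (hb 1 g1)
    have w2 := abs_le.1 (hb 2 g2)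
    have w5 := abs_le.1 (hb 5 g5)
    have w6 := abs_le.1 (hb 6 g6)
    have w7 := abs_le.1 (hb 7 g7)
    have w0 := abs_le.1 g0
    have hY : f ^ 3 ≤ (1 + x) ^ 2 * f ^ 3 := le_mul_of_one_le_left (by positivity) hx3
    obtain ⟨Y, hYd⟩ : ∃ Y, Y = (1 + x) ^ 2 * f ^ 3 := ⟨_, rfl⟩
    rw [← hYd] at w1 w2 w5 w6 w7 hY
    have hk0 : kp x 0 = 1 / 2 := rfl
    have hk3 : kp x 3 = 0 := rfl
    have hk4 : kp x 4 = 0 := rfl
    rw [hk0, hk3, hk4, hN0, mul_assoc, ← hYd, abs_le]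
    constructor <;> linarith [w0.1, w0.2, w1.1, w1.2, w2.1, w2.2, w5.1, w5.2, w6.1, w6.2, w7.1, w7.2]
  · obtain ⟨f, hf⟩ : ∃ f, f = ‖(a : ℍ[ℝ]) - 1‖ + ‖(b : ℍ[ℝ]) - 1‖ + ‖(c : ℍ[ℝ]) - 1‖ +
      ‖(d : ℍ[ℝ]) - 1‖ := ⟨_, rfl⟩
    obtain ⟨hf0, -, g0, g1, g2, g5, g6, g7⟩ := main_est a b c d f hf
    rw [← hf, hq, hq1, hq2, Gs_zero, Gs_zero]
    simp only [dm2_re]
    rw [Fin.sum_univ_eight, Fin.sum_univ_eight]
    have hN0 : (m0 a b c d 0).re =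
        -(1 / 2 * (‖cB a‖ ^ 2 + ‖cB b‖ ^ 2 + ‖cB c‖ ^ 2 + ‖cB d‖ ^ 2)) := by
      show (-(((1 / 2 * (‖cB a‖ ^ 2 + ‖cB b‖ ^ 2 + ‖cB c‖ ^ 2 + ‖cB d‖ ^ 2) : ℝ) : ℂ))).re = _
      rw [Complex.neg_re, Complex.ofReal_re]
    have hph : (ph 2 a + ph 2 b - ph 2 c - ph 2 d) ^ 2 =
        2 * ((a : ℍ[ℝ]).imK + (b : ℍ[ℝ]).imK - (c : ℍ[ℝ]).imK - (d : ℍ[ℝ]).imK) ^ 2 := by
      have h1 : ∀ q : ℍ[ℝ], ph 2 q = Real.sqrt 2 * q.imK := fun q => rfl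
      rw [h1, h1, h1, h1]
      have h2 : Real.sqrt 2 ^ 2 = 2 := Real.sq_sqrt (by norm_num)
      linear_combination ((a : ℍ[ℝ]).imK + (b : ℍ[ℝ]).imK - (c : ℍ[ℝ]).imK -
        (d : ℍ[ℝ]).imK) ^ 2 * h2
    have hb : ∀ j, ‖mm a b c d j - m0 a b c d j‖ ≤ 2 * f ^ 3 →
        |kp x j ^ 2 * ((mm a b c d j).re - (m0 a b c d j).re)| ≤ 2 * ((1 + x) ^ 2 * f ^ 3) := by
      intro j hj
      rw [abs_mul, ← Complex.sub_re, abs_pow]
      have h1 := (Complex.abs_re_le_norm (mm a b c d j - m0 a b c d j)).trans hj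
      calc |kp x j| ^ 2 * |(mm a b c d j - m0 a b c d j).re| ≤ (1 + x) ^ 2 * (2 * f ^ 3) :=
            mul_le_mul (pow_le_pow_left₀ (abs_nonneg _) (hk j) 2) h1 (abs_nonneg _) (by positivity)
        _ = 2 * ((1 + x) ^ 2 * f ^ 3) := by ring
    have w1 := abs_le.1 (hb 1 g1)
    have w2 := abs_le.1 (hb 2 g2)
    have w5 := abs_le.1 (hb 5 g5)
    have w6 := abs_le.1 (hb 6 g6)
    have w7 := abs_le.1 (hb 7 g7)
    have w0 := abs_le.1 g0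
    have hY : f ^ 3 ≤ (1 + x) ^ 2 * f ^ 3 := le_mul_of_one_le_left (by positivity) hx3
    obtain ⟨Y, hYd⟩ : ∃ Y, Y = (1 + x) ^ 2 * f ^ 3 := ⟨_, rfl⟩
    rw [← hYd] at w1 w2 w5 w6 w7 hY
    have hk0 : kp x 0 = 1 / 2 := rfl
    have hk3 : kp x 3 = 0 := rfl
    have hk4 : kp x 4 = 0 := rfl
    rw [hk0, hk3, hk4, hN0, hph, mul_assoc 100, ← hYd, abs_le]
    constructor <;> linarith [w0.1, w0.2, w1.1, w1.2, w2.1, w2.2, w5.1, w5.2, w6.1, w6.2, w7.1, w7.2]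

end

end Pool.Agent.H740.AF
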